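import Pool.Agent.H343R2.EH.Psi
import Pool.Agent.H343R2.EH.Primes
import Pool.Agent.H442R2.EHI.PntErr
import Pool.Agent.H442R2.EHI.Defs

/-!
T12: small moduli, from the exceptional class theorem (part 2) and the prime number theorem.
-/

namespace Pool.Agent.H442R2.EHI

open Finset

namespace LowerAux

/-- Part 2 of the exceptional class theorem. -/
def Part2 (U B x0 : ℕ) : Prop := ∀ x : ℕ, x0 ≤ x → ∀ A : ℝ, 1 ≤ A → ∀ D : ℕ,
    (D : ℝ) ≤ x / Real.log x ^ B → (D : ℝ) ^ 2 ≤ A * x / Real.log x ^ B →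
    ∀ L : ℕ → Finset ℕ, H343E.Fam A L →
    ∑ q ∈ Icc 1 D, ∑ a ∈ L q, |H343E.piAP x q a - H343E.pi1 x / (Nat.totient q : ℝ)| ≤
      A * x / Real.log x ^ U

noncomputable def EE (x d r : ℕ) : ℝ :=
  |H343E.piAP x d r - H343E.pi1 x / (Nat.totient d : ℝ)|

lemma EE_nonneg (x d r : ℕ) : 0 ≤ EE x d r := abs_nonneg _

lemma piAP_mod (x d a : ℕ) : piAP x d a = H343E.piAP x d (a % d) := by
  unfold piAP H343E.piAP
  have : (Icc 1 x).filter (fun p => p.Prime ∧ p ≡ a [MOD d]) =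
      (Icc 1 x).filter (fun p => p.Prime ∧ p ≡ a % d [MOD d]) := by
    apply filter_congr
    intro p _
    simp only [Nat.ModEq, Nat.mod_mod]
  rw [this]

lemma cop_mod {a d : ℕ} (h : a.Coprime d) : (a % d).Coprime d := by
  have := Nat.gcd_rec d a
  rw [Nat.Coprime, ← this, Nat.gcd_comm]
  exact h

/-- the members of the interval coprime to `d` -/
def Sd (a0 A d : ℕ) : Finset ℕ := (Ioc a0 (a0 + A)).filter (fun a => a.Coprime d)

lemma card_Sd (a0 A d : ℕ) : (Sd a0 A d).card ≤ A := by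
  unfold Sd
  refine (card_filter_le _ _).trans ?_
  simp

lemma inj_mod (a0 A d : ℕ) (h : A ≤ d) : Set.InjOn (fun a => a % d) (Sd a0 A d : Set ℕ) := by
  intro a ha b hb hab
  simp only [Sd, coe_filter, mem_Ioc, Set.mem_ofPred_eq] at ha hb
  have h1 : a ≡ b [MOD d] := hab
  apply Nat.ModEq.eq_of_abs_lt h1
  rw [abs_lt]
  constructor <;> omega

lemma count_class (a0 A d r : ℕ) (hd : 1 ≤ d) (hdA : d ≤ A) :
    (((Ioc a0 (a0 + A)).filter (fun a => a % d = r % d)).card : ℝ) ≤ 2 * A / d := by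
  have h := Nat.Ioc_filter_modEq_card a0 (a0 + A) (r := d) (by omega) r
  have hd0 : (0:ℝ) < d := by exact_mod_cast hd
  have h2 : (((Ioc a0 (a0 + A)).filter (fun a => a % d = r % d)).card : ℤ) ≤
      max (⌊(((a0 + A : ℕ) : ℚ) - r) / d⌋ - ⌊((a0 : ℚ) - r) / d⌋) 0 := le_of_eq h
  have h3 : ((⌊(((a0 + A : ℕ) : ℚ) - r) / d⌋ : ℤ) : ℝ) - ((⌊((a0 : ℚ) - r) / d⌋ : ℤ) : ℝ) ≤
      A / d + 1 := by
    have e1 : ((⌊(((a0 + A : ℕ) : ℚ) - r) / d⌋ : ℤ) : ℚ) ≤ (((a0 + A : ℕ) : ℚ) - r) / d :=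
      Int.floor_le _
    have e2 : ((a0 : ℚ) - r) / d < ((⌊((a0 : ℚ) - r) / d⌋ : ℤ) : ℚ) + 1 := Int.lt_floor_add_one _
    have e3 : ((⌊(((a0 + A : ℕ) : ℚ) - r) / d⌋ : ℤ) : ℚ) - ((⌊((a0 : ℚ) - r) / d⌋ : ℤ) : ℚ) ≤
        A / d + 1 := by
      have : (((a0 + A : ℕ) : ℚ) - r) / d = ((a0 : ℚ) - r) / d + A / d := by
        push_cast; ring
      have e1' := e1.trans_eq this
      linarith
    have := (Rat.cast_le (K := ℝ)).mpr e3
    push_cast at this ⊢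
    exact this
  have h4 : (1:ℝ) ≤ A / d := by
    rw [le_div_iff₀ hd0]; rw [one_mul]; exact_mod_cast hdA
  have h5 : (((Ioc a0 (a0 + A)).filter (fun a => a % d = r % d)).card : ℝ) ≤
      max (((⌊(((a0 + A : ℕ) : ℚ) - r) / d⌋ : ℤ) : ℝ) - ((⌊((a0 : ℚ) - r) / d⌋ : ℤ) : ℝ)) 0 := by
    exact_mod_cast h2
  refine h5.trans ?_
  rw [max_le_iff]
  have e : 2 * (A:ℝ) / d = A / d + A / d := by ring
  constructor
  · rw [e]; linarith
  · positivity

/-- the reduced classes -/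
def Rd (d : ℕ) : Finset ℕ := (range d).filter (fun r => r.Coprime d)

lemma sum_small (x a0 A d : ℕ) (hd : 1 ≤ d) (hdA : d ≤ A) :
    ∑ a ∈ Sd a0 A d, EE x d (a % d) ≤ (2 * A / d) * ∑ r ∈ Rd d, EE x d r := by
  have hm : ∀ a ∈ Sd a0 A d, a % d ∈ Rd d := by
    intro a ha
    simp only [Sd, mem_filter] at ha
    simp only [Rd, mem_filter, mem_range]
    exact ⟨Nat.mod_lt _ (by omega), cop_mod ha.2⟩
  rw [← sum_fiberwise_of_maps_to hm, mul_sum]
  apply sum_le_sum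
  intro r hr
  simp only [Rd, mem_filter, mem_range] at hr
  have h1 : ∑ a ∈ (Sd a0 A d).filter (fun a => a % d = r), EE x d (a % d) =
      ((Sd a0 A d).filter (fun a => a % d = r)).card * EE x d r := by
    rw [← nsmul_eq_mul, ← sum_const]
    apply sum_congr rfl
    intro a ha
    rw [mem_filter] at ha
    rw [ha.2]
  rw [h1]
  apply mul_le_mul_of_nonneg_right _ (EE_nonneg _ _ _)
  refine le_trans ?_ (count_class a0 A d r hd hdA)
  have : ((Sd a0 A d).filter (fun a => a % d = r)) ⊆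
      (Ioc a0 (a0 + A)).filter (fun a => a % d = r % d) := by
    intro a ha
    simp only [Sd, mem_filter] at ha
    rw [mem_filter]
    exact ⟨ha.1.1, by rw [ha.2, Nat.mod_eq_of_lt hr.1]⟩
  exact_mod_cast card_le_card this

lemma sum_large (x a0 A d : ℕ) (h : A ≤ d) :
    ∑ a ∈ Sd a0 A d, EE x d (a % d) = ∑ r ∈ (Sd a0 A d).image (fun a => a % d), EE x d r := by
  rw [sum_image]
  exact inj_mod a0 A d h

lemma log_two_le (A x : ℕ) (hA : 1 ≤ A) (hAx : A ≤ x) :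
    ((Nat.log 2 A : ℕ) : ℝ) ≤ 2 * Real.log x := by
  have h1 : (2:ℕ) ^ (Nat.log 2 A) ≤ A := Nat.pow_log_le_self 2 (by omega)
  have h2 : ((2:ℝ)) ^ (Nat.log 2 A) ≤ x := by exact_mod_cast h1.trans hAx
  have h3 := Real.log_le_log (by positivity) h2
  rw [Real.log_pow] at h3
  have h4 : (1/2 : ℝ) ≤ Real.log 2 := by
    have := Real.log_two_gt_d9; linarith
  have h5 : (0:ℝ) ≤ (Nat.log 2 A : ℕ) := Nat.cast_nonneg _
  nlinarith

/-- Part I: moduli `≥ A`. -/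
lemma partI {U B x0 : ℕ} (h2 : Part2 U B x0) (x D A a0 : ℕ) (hx : x0 ≤ x) (hA : 1 ≤ A)
    (hD1 : (D : ℝ) ≤ x / Real.log x ^ B) (hD2 : (D : ℝ) ^ 2 ≤ A * x / Real.log x ^ B) :
    ∑ d ∈ (Icc 1 D).filter (fun d => A < d), ∑ a ∈ Sd a0 A d, EE x d (a % d) ≤
      A * x / Real.log x ^ U := by
  set L : ℕ → Finset ℕ := fun d => if A < d then (Sd a0 A d).image (fun a => a % d) else ∅ with hL
  have hF : H343E.Fam (A : ℝ) L := by
    constructor
    · intro q a ha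
      rw [hL] at ha
      beta_reduce at ha
      split_ifs at ha with h
      · rw [mem_image] at ha
        obtain ⟨b, hb, rfl⟩ := ha
        simp only [Sd, mem_filter] at hb
        exact ⟨Nat.mod_lt _ (by omega), cop_mod hb.2⟩
      · simp at ha
    · intro q
      rw [hL]
      beta_reduce
      split_ifs with h
      · exact_mod_cast card_image_le.trans (card_Sd a0 A q)
      · simp
  have := h2 x hx A (by exact_mod_cast hA) D hD1 hD2 L hF
  refine le_trans (le_of_eq ?_) this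
  rw [sum_filter]
  apply sum_congr rfl
  intro d _
  rw [hL]
  beta_reduce
  split_ifs with h
  · rw [sum_large x a0 A d h.le]
    rfl
  · simp

/-- Part II: moduli `≤ A`. -/
lemma partII {U B x0 : ℕ} (h2 : Part2 U B x0) (x A a0 : ℕ) (hx : x0 ≤ x) (hA : 1 ≤ A)
    (hAx : A ≤ x) (hA1 : 2 * (A : ℝ) ≤ x / Real.log x ^ B) (hlog : 1 ≤ Real.log x) :
    ∑ d ∈ Icc 1 A, ∑ a ∈ Sd a0 A d, EE x d (a % d) ≤
      (2 * Real.log x + 1) * (4 * (A * x / Real.log x ^ U)) := by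
  have hA0 : (0:ℝ) < A := by exact_mod_cast hA
  have hx0 : (0:ℝ) ≤ x := Nat.cast_nonneg x
  have hm : ∀ d ∈ Icc 1 A, Nat.log 2 d ∈ range (Nat.log 2 A + 1) := by
    intro d hd
    rw [mem_Icc] at hd
    rw [mem_range]
    exact Nat.lt_succ_of_le (Nat.log_mono_right hd.2)
  rw [← sum_fiberwise_of_maps_to hm]
  have hblock : ∀ j ∈ range (Nat.log 2 A + 1),
      ∑ d ∈ (Icc 1 A).filter (fun d => Nat.log 2 d = j), ∑ a ∈ Sd a0 A d, EE x d (a % d) ≤
        4 * (A * x / Real.log x ^ U) := by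
    intro j hj
    rw [mem_range, Nat.lt_succ_iff] at hj
    have hjA : 2 ^ j ≤ A := (Nat.pow_le_pow_right (by norm_num) hj).trans
      (Nat.pow_log_le_self 2 (by omega))
    have h2j : (0:ℝ) < 2 ^ j := by positivity
    set L : ℕ → Finset ℕ := fun d => if 1 ≤ d ∧ Nat.log 2 d = j then Rd d else ∅ with hL
    have hF : H343E.Fam ((2 ^ (j + 1) : ℕ) : ℝ) L := by
      constructor
      · intro q a ha
        rw [hL] at ha
        beta_reduce at ha
        split_ifs at ha with h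
        · simp only [Rd, mem_filter, mem_range] at ha
          exact ha
        · simp at ha
      · intro q
        rw [hL]
        beta_reduce
        split_ifs with h
        · have h1 : (Rd q).card ≤ q := by
            unfold Rd
            exact (card_filter_le _ _).trans (by simp)
          have h3 : q < 2 ^ (j + 1) := by
            rw [← h.2]
            exact Nat.lt_pow_succ_log_self (by norm_num) q
          exact_mod_cast h1.trans h3.le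
        · simp
    have hD1 : ((2 ^ (j + 1) : ℕ) : ℝ) ≤ x / Real.log x ^ B := by
      refine le_trans ?_ hA1
      have : (2 ^ (j + 1) : ℕ) ≤ 2 * A := by rw [pow_succ]; omega
      exact_mod_cast this
    have hp : (1:ℝ) ≤ ((2 ^ (j + 1) : ℕ) : ℝ) := by exact_mod_cast Nat.one_le_two_pow
    have hD2 : ((2 ^ (j + 1) : ℕ) : ℝ) ^ 2 ≤ ((2 ^ (j + 1) : ℕ) : ℝ) * x / Real.log x ^ B := by
      rw [sq, mul_div_assoc]
      exact mul_le_mul_of_nonneg_left hD1 (by linarith)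
    have hmain := h2 x hx _ hp _ hD1 hD2 L hF
    have hterm : ∀ d ∈ (Icc 1 A).filter (fun d => Nat.log 2 d = j),
        ∑ a ∈ Sd a0 A d, EE x d (a % d) ≤ (2 * A / 2 ^ j) * ∑ r ∈ L d, EE x d r := by
      intro d hd
      rw [mem_filter, mem_Icc] at hd
      have hLd : L d = Rd d := by
        rw [hL]; beta_reduce; rw [if_pos ⟨hd.1.1, hd.2⟩]
      rw [hLd]
      refine (sum_small x a0 A d hd.1.1 hd.1.2).trans ?_
      apply mul_le_mul_of_nonneg_right _ (sum_nonneg fun r _ => EE_nonneg _ _ _)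
      have h3 : 2 ^ j ≤ d := by
        rw [← hd.2]
        exact Nat.pow_log_le_self 2 (by omega)
      have h4 : ((2:ℝ)) ^ j ≤ d := by exact_mod_cast h3
      exact div_le_div_of_nonneg_left (by positivity) h2j h4
    refine (sum_le_sum hterm).trans ?_
    rw [← mul_sum]
    have hsub : (Icc 1 A).filter (fun d => Nat.log 2 d = j) ⊆ Icc 1 (2 ^ (j + 1)) := by
      intro d hd
      rw [mem_filter, mem_Icc] at hd
      rw [mem_Icc]
      refine ⟨hd.1.1, ?_⟩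
      rw [← hd.2]
      exact (Nat.lt_pow_succ_log_self (by norm_num) d).le
    have h5 : ∑ d ∈ (Icc 1 A).filter (fun d => Nat.log 2 d = j), ∑ r ∈ L d, EE x d r ≤
        ((2 ^ (j + 1) : ℕ) : ℝ) * x / Real.log x ^ U := by
      refine le_trans ?_ hmain
      exact sum_le_sum_of_subset_of_nonneg hsub
        (fun d _ _ => sum_nonneg fun r _ => EE_nonneg _ _ _)
    refine (mul_le_mul_of_nonneg_left h5 (by positivity)).trans (le_of_eq ?_)
    push_cast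
    rw [pow_succ]
    field_simp
    ring
  refine (sum_le_sum hblock).trans ?_
  rw [sum_const, card_range, nsmul_eq_mul]
  have hl := log_two_le A x hA hAx
  have hnn : 0 ≤ 4 * ((A:ℝ) * x / Real.log x ^ U) := by positivity
  apply mul_le_mul_of_nonneg_right _ hnn
  push_cast
  linarith

theorem lower_of (hpr : ∀ U : ℕ, ∃ B x0 : ℕ, Part2 U B x0)
    (hphi : ∃ k : ℕ, ∀ Q : ℕ, ∑ e ∈ Icc 1 Q, 1 / (Nat.totient e : ℝ) ≤ (1 + Real.log Q) ^ k)
    (hpnt : ∀ U : ℕ, ∃ C : ℝ, ∀ y : ℕ, 2 ≤ y →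
      |(((Icc 1 y).filter (fun p : ℕ => p.Prime)).card : ℝ) - lis y| ≤ C * y / Real.log y ^ U)
    (U : ℕ) : ∃ (B x0 : ℕ), ∀ x : ℕ, x0 ≤ x → ∀ D A a0 : ℕ,
    (D : ℝ) ^ 2 * Real.log x ^ B ≤ (A : ℝ) * x → (D : ℝ) * Real.log x ^ B ≤ x →
    (A : ℝ) * Real.log x ^ B ≤ x →
    ∑ a ∈ Ioc a0 (a0 + A), ∑ d ∈ (Icc 1 D).filter (fun d => a.Coprime d),
      |piAP x d a - lis x / (Nat.totient d : ℝ)| ≤ A * x / Real.log x ^ U := by
  obtain ⟨k, hk⟩ := hphi
  obtain ⟨B, x1, h2⟩ := hpr (U + 2)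
  obtain ⟨C, hC⟩ := hpnt (U + k + 2)
  have hev : ∀ᶠ X : ℝ in Filter.atTop, 24 + 4 * |C| * 2 ^ k ≤ Real.log X :=
    Real.tendsto_log_atTop.eventually (Filter.eventually_ge_atTop _)
  have hev4 : ∀ᶠ X : ℝ in Filter.atTop, (4 : ℝ) ≤ X := Filter.eventually_ge_atTop _
  obtain ⟨Y, hY⟩ := Filter.eventually_atTop.mp (hev.and hev4)
  refine ⟨B + 1, max x1 ⌈Y⌉₊, ?_⟩
  intro x hx D A a0 hD2 hD1 hA1
  obtain ⟨g1, g4⟩ := hY x (Nat.ceil_le.mp ((le_max_right _ _).trans hx))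
  have hx1 : x1 ≤ x := (le_max_left _ _).trans hx
  rcases Nat.eq_zero_or_pos A with hA0 | hApos
  · subst hA0; simp
  have hA1' : (1:ℝ) ≤ A := by exact_mod_cast hApos
  have hCk : 0 ≤ 4 * |C| * 2 ^ k := by positivity
  have hx0 : (0:ℝ) < x := by linarith
  obtain ⟨ℓ, hℓ⟩ : ∃ ℓ : ℝ, ℓ = Real.log x := ⟨_, rfl⟩
  have hℓ24 : 24 ≤ ℓ := by rw [hℓ]; linarith
  have hℓ1 : 1 ≤ ℓ := by linarith
  have hℓ0 : 0 < ℓ := by linarith
  have hx2 : 2 ≤ x := by
    have : (2 : ℝ) ≤ x := by linarith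
    exact_mod_cast this
  rw [← hℓ] at hD2 hD1 hA1 g1
  have hpB : (0:ℝ) < ℓ ^ B := by positivity
  have hD0 : (0:ℝ) ≤ D := Nat.cast_nonneg D
  have hmon : ℓ ^ B * 2 ≤ ℓ ^ (B + 1) := by
    rw [pow_succ]; exact mul_le_mul_of_nonneg_left (by linarith) hpB.le
  -- conditions
  have c1 : (D : ℝ) ≤ x / ℓ ^ B := by
    rw [le_div_iff₀ hpB]
    refine le_trans ?_ hD1
    apply mul_le_mul_of_nonneg_left _ hD0
    linarith
  have c2 : (D : ℝ) ^ 2 ≤ A * x / ℓ ^ B := by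
    rw [le_div_iff₀ hpB]
    refine le_trans ?_ hD2
    apply mul_le_mul_of_nonneg_left _ (by positivity)
    linarith
  have c3 : 2 * (A : ℝ) ≤ x / ℓ ^ B := by
    rw [le_div_iff₀ hpB]
    refine le_trans ?_ hA1
    nlinarith
  have hAx : A ≤ x := by
    have : (A:ℝ) ≤ x := by
      have h1 : (1:ℝ) ≤ ℓ ^ (B + 1) := one_le_pow₀ hℓ1
      nlinarith
    exact_mod_cast this
  have hDx : (D:ℝ) ≤ x := by
    have h1 : (1:ℝ) ≤ ℓ ^ (B + 1) := one_le_pow₀ hℓ1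
    nlinarith
  have hI := partI h2 x D A a0 hx1 hApos (by rw [← hℓ]; exact c1) (by rw [← hℓ]; exact c2)
  have hII := partII h2 x A a0 hx1 hApos hAx (by rw [← hℓ]; exact c3) (by rw [← hℓ]; exact hℓ1)
  rw [← hℓ] at hI hII
  -- the prime number theorem part
  obtain ⟨δ, hδ⟩ : ∃ δ : ℝ, δ = |H343E.pi1 x - lis x| := ⟨_, rfl⟩
  have hδ0 : 0 ≤ δ := by rw [hδ]; exact abs_nonneg _
  have hδ1 : δ ≤ |C| * x / ℓ ^ (U + k + 2) := by
    have := hC x hx2
    rw [← hℓ] at this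
    rw [hδ]
    refine le_trans this ?_
    gcongr
    exact le_abs_self C
  have hpt : ∀ a d : ℕ, |piAP x d a - lis x / (Nat.totient d : ℝ)| ≤
      EE x d (a % d) + δ * (1 / (Nat.totient d : ℝ)) := by
    intro a d
    rw [piAP_mod, EE, hδ, mul_one_div]
    have e : H343E.piAP x d (a % d) - lis x / (Nat.totient d : ℝ) =
        (H343E.piAP x d (a % d) - H343E.pi1 x / (Nat.totient d : ℝ)) +
        (H343E.pi1 x - lis x) / (Nat.totient d : ℝ) := by ring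
    rw [e]
    refine (abs_add_le _ _).trans ?_
    rw [abs_div, Nat.abs_cast]
  have hswap : ∑ a ∈ Ioc a0 (a0 + A), ∑ d ∈ (Icc 1 D).filter (fun d => a.Coprime d),
      |piAP x d a - lis x / (Nat.totient d : ℝ)| =
      ∑ d ∈ Icc 1 D, ∑ a ∈ Sd a0 A d, |piAP x d a - lis x / (Nat.totient d : ℝ)| := by
    simp only [Sd, sum_filter]
    rw [sum_comm]
  rw [hswap]
  have h1 : ∑ d ∈ Icc 1 D, ∑ a ∈ Sd a0 A d, |piAP x d a - lis x / (Nat.totient d : ℝ)| ≤
      ∑ d ∈ Icc 1 D, (∑ a ∈ Sd a0 A d, EE x d (a % d) + A * δ * (1 / (Nat.totient d : ℝ))) := by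
    apply sum_le_sum
    intro d _
    refine (sum_le_sum fun a _ => hpt a d).trans ?_
    rw [sum_add_distrib, sum_const, nsmul_eq_mul, mul_assoc]
    have h3 : ((Sd a0 A d).card : ℝ) ≤ A := by exact_mod_cast card_Sd a0 A d
    have h4 : 0 ≤ δ * (1 / (Nat.totient d : ℝ)) := by positivity
    have := mul_le_mul_of_nonneg_right h3 h4
    linarith
  rw [sum_add_distrib, ← mul_sum] at h1
  have h3 : ∑ d ∈ Icc 1 D, ∑ a ∈ Sd a0 A d, EE x d (a % d) ≤
      A * x / ℓ ^ (U + 2) + (2 * ℓ + 1) * (4 * (A * x / ℓ ^ (U + 2))) := by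
    have hnn : ∀ d, 0 ≤ ∑ a ∈ Sd a0 A d, EE x d (a % d) :=
      fun d => sum_nonneg fun a _ => EE_nonneg _ _ _
    rw [← sum_filter_add_sum_filter_not (Icc 1 D) (fun d => A < d)]
    refine add_le_add hI (le_trans ?_ hII)
    apply sum_le_sum_of_subset_of_nonneg _ (fun d _ _ => hnn d)
    intro d hd
    simp only [mem_filter, mem_Icc, not_lt] at hd ⊢
    exact ⟨hd.1.1, hd.2⟩
  have h4 : ∑ e ∈ Icc 1 D, 1 / (Nat.totient e : ℝ) ≤ (2 * ℓ) ^ k := by
    rcases Nat.eq_zero_or_pos D with hD | hD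
    · subst hD; simp; positivity
    refine (hk D).trans ?_
    have hlD : Real.log D ≤ ℓ := by
      rw [hℓ]; exact Real.log_le_log (by exact_mod_cast hD) hDx
    have hlD0 : 0 ≤ Real.log D := Real.log_nonneg (by exact_mod_cast hD)
    exact pow_le_pow_left₀ (by linarith) (by linarith) k
  obtain ⟨V, hV⟩ : ∃ V : ℝ, V = A * x / ℓ ^ U := ⟨_, rfl⟩
  have hV0 : 0 ≤ V := by rw [hV]; positivity
  have h5 : (A:ℝ) * δ * ∑ e ∈ Icc 1 D, 1 / (Nat.totient e : ℝ) ≤ V / 4 := by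
    have s1 : (A:ℝ) * δ * ∑ e ∈ Icc 1 D, 1 / (Nat.totient e : ℝ) ≤
        A * (|C| * x / ℓ ^ (U + k + 2)) * (2 * ℓ) ^ k := by
      gcongr
    refine s1.trans ?_
    have s2 : (A:ℝ) * (|C| * x / ℓ ^ (U + k + 2)) * (2 * ℓ) ^ k = V * (|C| * 2 ^ k / ℓ ^ 2) := by
      rw [hV, mul_pow, pow_add, pow_add]
      field_simp
    rw [s2]
    have s3 : |C| * 2 ^ k / ℓ ^ 2 ≤ 1 / 4 := by
      rw [div_le_iff₀ (by positivity)]
      nlinarith
    calc V * (|C| * 2 ^ k / ℓ ^ 2) ≤ V * (1 / 4) := mul_le_mul_of_nonneg_left s3 hV0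
      _ = V / 4 := by ring
  have h6 : A * x / ℓ ^ (U + 2) + (2 * ℓ + 1) * (4 * (A * x / ℓ ^ (U + 2))) ≤ V * (3 / 4) := by
    have e : (A:ℝ) * x / ℓ ^ (U + 2) = V / ℓ ^ 2 := by
      rw [hV, pow_add]; field_simp
    rw [e]
    have e2 : V / ℓ ^ 2 + (2 * ℓ + 1) * (4 * (V / ℓ ^ 2)) = V * ((8 * ℓ + 5) / ℓ ^ 2) := by
      field_simp; ring
    rw [e2]
    apply mul_le_mul_of_nonneg_left _ hV0
    rw [div_le_iff₀ (by positivity)]
    nlinarith
  rw [← hℓ, ← hV]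
  linarith

end LowerAux

open LowerAux in
/-- T12 (Lower.lean): small moduli. -/
theorem lower (U : ℕ) : ∃ (B x0 : ℕ), ∀ x : ℕ, x0 ≤ x → ∀ D A a0 : ℕ,
    (D : ℝ) ^ 2 * Real.log x ^ B ≤ (A : ℝ) * x → (D : ℝ) * Real.log x ^ B ≤ x →
    (A : ℝ) * Real.log x ^ B ≤ x →
    ∑ a ∈ Ioc a0 (a0 + A), ∑ d ∈ (Icc 1 D).filter (fun d => a.Coprime d),
      |piAP x d a - lis x / (Nat.totient d : ℝ)| ≤ A * x / Real.log x ^ U := by
  refine lower_of (fun U => H343E.primes_of U (H343E.unsmoothed (U + 2))) ?_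
    (fun U => pnt_err U) U
  obtain ⟨k, hk⟩ := Pool.Agent.H398R2.BV.sum_pow_omega_div_totient 1 le_rfl
  exact ⟨2 ^ k, fun Q => by simpa using hk Q⟩

end Pool.Agent.H442R2.EHI
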