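import Pool.Agent.H442R2.EHI.Core2

/-!
From the second moment to the mean value theorem for `D ≥ x^{1/2}`.
-/

namespace Pool.Agent.H442R2.EHI

open Finset Filter
open Pool.Agent.H469R2.NK (e norm_e e_add conj_e e_zero)

lemma ffz_bound (x Q : ℕ) (m : ℤ) : ‖ffz x Q m‖ ≤ 1 + 2 * (Q : ℝ) ^ 2 := by
  unfold ffz
  split_ifs
  · exact ff_bound x Q _
  · simp; positivity

lemma ffz_zero {x Q : ℕ} {m : ℤ} (h : ¬ (1 ≤ m ∧ m ≤ x)) : ffz x Q m = 0 := by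
  unfold ffz
  split_ifs with h1
  · apply ff_zero_of_gt
    push Not at h
    have := h h1
    omega
  · rfl

/-- the progression as a sum over integers -/
lemma ap_sum (x Q D d a : ℕ) (ha1 : 1 ≤ a) (ha : a ≤ x) (hD : 1 ≤ D) (hd : D < d) :
    ∑ n ∈ (Icc 2 x).filter (fun n => n ≡ a [MOD d]), ff x Q n =
    ffz x Q a + ∑ k ∈ Icc 1 (x / D), ffz x Q ((a : ℤ) + 1 * d * k) +
      ∑ k ∈ Icc 1 (x / D), ffz x Q ((a : ℤ) + (-1) * d * k) := by
  classical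
  set K := x / D with hK
  have hdpos : 0 < d := by omega
  -- bound on `k`
  have hkb : ∀ k : ℕ, d * k ≤ x → k ≤ K := by
    intro k hk
    rw [hK, Nat.le_div_iff_mul_le (by omega)]
    nlinarith
  clear_value K
  have h1 : ∑ n ∈ (Icc 2 x).filter (fun n => n ≡ a [MOD d]), ff x Q n =
      ∑ j ∈ Icc (-(K : ℤ)) K, ffz x Q ((a : ℤ) + d * j) := by
    have h2 : ∑ j ∈ Icc (-(K : ℤ)) K, ffz x Q ((a : ℤ) + d * j) =
        ∑ j ∈ (Icc (-(K : ℤ)) K).filter (fun j => 2 ≤ (a : ℤ) + d * j ∧ (a : ℤ) + d * j ≤ x),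
          ffz x Q ((a : ℤ) + d * j) := by
      symm
      apply sum_filter_of_ne
      intro j _ hne
      by_contra hcon
      apply hne
      by_cases h3 : (1 ≤ (a : ℤ) + d * j ∧ (a : ℤ) + d * j ≤ x)
      · have : (a : ℤ) + d * j = 1 := by
          by_contra h4
          exact hcon ⟨by omega, h3.2⟩
        rw [this]
        unfold ffz ff
        simp
      · exact ffz_zero h3
    rw [h2]
    symm
    apply sum_nbij' (fun j => ((a : ℤ) + d * j).toNat) (fun n => ((n : ℤ) - a) / d)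
    · intro j hj
      rw [mem_filter, mem_Icc] at hj
      rw [mem_filter, mem_Icc]
      refine ⟨by omega, ?_⟩
      rw [← Int.natCast_modEq_iff]
      have : ((((a : ℤ) + d * j).toNat : ℕ) : ℤ) = a + d * j := Int.toNat_of_nonneg (by omega)
      rw [this]
      exact (Int.modEq_iff_dvd.mpr ⟨-j, by ring⟩)
    · intro n hn
      rw [mem_filter, mem_Icc] at hn
      obtain ⟨hn1, hn2⟩ := hn
      rw [← Int.natCast_modEq_iff] at hn2
      obtain ⟨t, ht⟩ := hn2.symm.dvd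
      have hq : ((n : ℤ) - a) / d = t := by
        rw [ht, Int.mul_ediv_cancel_left _ (by omega)]
      rw [hq, mem_filter, mem_Icc]
      have hdz : (0:ℤ) < d := by exact_mod_cast hdpos
      refine ⟨⟨?_, ?_⟩, by omega, by omega⟩
      · -- -K ≤ t
        by_contra hlt
        push Not at hlt
        have h5 : (K : ℤ) + 1 ≤ -t := by omega
        have h6 : (d:ℤ) * (K + 1) ≤ x := by
          have : (d:ℤ) * (K+1) ≤ d * (-t) := by nlinarith
          have h7 : (d:ℤ) * (-t) = a - n := by linarith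
          omega
        have h8 : d * (K + 1) ≤ x := by exact_mod_cast h6
        have := hkb (K+1) h8
        omega
      · by_contra hlt
        push Not at hlt
        have h5 : (K : ℤ) + 1 ≤ t := by omega
        have h6 : (d:ℤ) * (K + 1) ≤ x := by
          have : (d:ℤ) * (K+1) ≤ d * t := by nlinarith
          omega
        have h8 : d * (K + 1) ≤ x := by exact_mod_cast h6
        have := hkb (K+1) h8
        omega
    · intro j hj
      rw [mem_filter, mem_Icc] at hj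
      have : ((((a : ℤ) + d * j).toNat : ℕ) : ℤ) = a + d * j := Int.toNat_of_nonneg (by omega)
      simp only [this]
      rw [show (a : ℤ) + d * j - a = d * j by ring, Int.mul_ediv_cancel_left _ (by omega)]
    · intro n hn
      rw [mem_filter, mem_Icc] at hn
      obtain ⟨hn1, hn2⟩ := hn
      rw [← Int.natCast_modEq_iff] at hn2
      obtain ⟨t, ht⟩ := hn2.symm.dvd
      have hq : ((n : ℤ) - a) / d = t := by
        rw [ht, Int.mul_ediv_cancel_left _ (by omega)]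
      simp only [hq]
      omega
    · intro j hj
      rw [mem_filter, mem_Icc] at hj
      unfold ffz
      rw [if_pos (by omega)]
  rw [h1]
  -- split the integer sum
  have h3 : Icc (-(K : ℤ)) K = {0} ∪ ((Icc 1 K).image (fun k : ℕ => (k : ℤ)) ∪
      (Icc 1 K).image (fun k : ℕ => -(k : ℤ))) := by
    ext j
    simp only [mem_Icc, mem_union, mem_singleton, mem_image]
    constructor
    · intro hj
      rcases lt_trichotomy j 0 with h | h | h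
      · right; right; exact ⟨(-j).toNat, by omega, by omega⟩
      · left; exact h
      · right; left; exact ⟨j.toNat, by omega, by omega⟩
    · rintro (h | ⟨k, hk, rfl⟩ | ⟨k, hk, rfl⟩) <;> omega
  have hdis1 : Disjoint ({0} : Finset ℤ) ((Icc 1 K).image (fun k : ℕ => (k : ℤ)) ∪
      (Icc 1 K).image (fun k : ℕ => -(k : ℤ))) := by
    rw [disjoint_singleton_left]
    simp only [mem_union, mem_image, mem_Icc]
    rintro (⟨k, hk, h⟩ | ⟨k, hk, h⟩) <;> omega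
  have hdis2 : Disjoint ((Icc 1 K).image (fun k : ℕ => (k : ℤ)))
      ((Icc 1 K).image (fun k : ℕ => -(k : ℤ))) := by
    rw [disjoint_left]
    intro j hj hj2
    rw [mem_image] at hj hj2
    obtain ⟨k, hk, h⟩ := hj
    obtain ⟨k2, hk2, h2⟩ := hj2
    rw [mem_Icc] at hk hk2
    omega
  rw [h3, sum_union hdis1, sum_union hdis2, sum_singleton, sum_image (by intro a _ b _ h; simpa using h),
    sum_image (by intro a _ b _ h; simpa using h), mul_zero, add_zero, add_assoc]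
  congr 1
  congr 1
  · exact sum_congr rfl fun k _ => by rw [one_mul]
  · exact sum_congr rfl fun k _ => by congr 1; ring

lemma disc_le (x Q D d a : ℕ) (ha1 : 1 ≤ a) (ha : a ≤ x) (hD : 1 ≤ D) (hd : D < d) (K1 : ℕ)
    (hK1 : K1 ≤ x / D) :
    |piAP x d a - lis x / (Nat.totient d : ℝ)| ≤
      ‖(∑ n ∈ (Icc 2 x).filter (fun n => n ≡ a [MOD d]), gg Q n / (Real.log n : ℂ)) -
        ((lis x / (Nat.totient d : ℝ) : ℝ) : ℂ)‖ + (1 + 2 * K1) * (1 + 2 * (Q : ℝ) ^ 2) +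
      ‖∑ k ∈ Ioc K1 (x / D), ffz x Q ((a : ℤ) + (1 : ℤ) * d * k)‖ +
      ‖∑ k ∈ Ioc K1 (x / D), ffz x Q ((a : ℤ) + (-1 : ℤ) * d * k)‖ := by
  classical
  have h1 : ((piAP x d a : ℝ) : ℂ) = ∑ n ∈ (Icc 2 x).filter (fun n => n ≡ a [MOD d]), ff x Q n +
      ∑ n ∈ (Icc 2 x).filter (fun n => n ≡ a [MOD d]), gg Q n / (Real.log n : ℂ) := by
    rw [← sum_add_distrib]
    have h2 : ∀ n ∈ (Icc 2 x).filter (fun n => n ≡ a [MOD d]),
        ff x Q n + gg Q n / (Real.log n : ℂ) = if n.Prime then 1 else 0 := by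
      intro n hn
      rw [mem_filter, mem_Icc] at hn
      unfold ff
      rw [if_pos hn.1]
      ring
    rw [sum_congr rfl h2, ← sum_filter, sum_const, nsmul_eq_mul, mul_one, filter_filter]
    unfold piAP
    push_cast
    congr 2
    ext n
    simp only [mem_filter, mem_Icc]
    constructor
    · rintro ⟨⟨h3, h4⟩, h5, h6⟩
      exact ⟨⟨h5.two_le, h4⟩, h6, h5⟩
    · rintro ⟨⟨h3, h4⟩, h5, h6⟩
      exact ⟨⟨by omega, h4⟩, h6, h5⟩
  have h2 : |piAP x d a - lis x / (Nat.totient d : ℝ)| =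
      ‖((piAP x d a : ℝ) : ℂ) - ((lis x / (Nat.totient d : ℝ) : ℝ) : ℂ)‖ := by
    rw [← Complex.ofReal_sub, Complex.norm_real, Real.norm_eq_abs]
  rw [h2, h1, ap_sum x Q D d a ha1 ha hD hd]
  have hsplit : ∀ σ : ℤ, ∑ k ∈ Icc 1 (x / D), ffz x Q ((a : ℤ) + σ * d * k) =
      ∑ k ∈ Icc 1 K1, ffz x Q ((a : ℤ) + σ * d * k) +
      ∑ k ∈ Ioc K1 (x / D), ffz x Q ((a : ℤ) + σ * d * k) := by
    intro σ
    rw [← sum_union]
    · congr 1
      ext k
      simp only [mem_union, mem_Icc, mem_Ioc]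
      omega
    · rw [disjoint_left]
      intro k hk hk2
      rw [mem_Icc] at hk; rw [mem_Ioc] at hk2; omega
  rw [hsplit 1, hsplit (-1)]
  have hsmall : ∀ σ : ℤ, ‖∑ k ∈ Icc 1 K1, ffz x Q ((a : ℤ) + σ * d * k)‖ ≤
      K1 * (1 + 2 * (Q : ℝ) ^ 2) := by
    intro σ
    refine (norm_sum_le _ _).trans ?_
    refine (sum_le_sum fun k _ => ffz_bound x Q _).trans ?_
    rw [sum_const, Nat.card_Icc, nsmul_eq_mul]
    simp
  have h3 := hsmall 1
  have h4 := hsmall (-1)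
  have h5 := ffz_bound x Q (a : ℤ)
  set G := ∑ n ∈ (Icc 2 x).filter (fun n => n ≡ a [MOD d]), gg Q n / (Real.log n : ℂ)
  set M : ℂ := ((lis x / (Nat.totient d : ℝ) : ℝ) : ℂ)
  set z0 := ffz x Q (a : ℤ)
  set z1 := ∑ k ∈ Icc 1 K1, ffz x Q ((a : ℤ) + 1 * d * k)
  set z2 := ∑ k ∈ Ioc K1 (x / D), ffz x Q ((a : ℤ) + 1 * d * k)
  set z3 := ∑ k ∈ Icc 1 K1, ffz x Q ((a : ℤ) + (-1) * d * k)
  set z4 := ∑ k ∈ Ioc K1 (x / D), ffz x Q ((a : ℤ) + (-1) * d * k)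
  have h6 : z0 + (z1 + z2) + (z3 + z4) + G - M = (G - M) + z0 + z1 + z3 + z2 + z4 := by ring
  rw [h6]
  have t1 := norm_add_le ((G - M) + z0 + z1 + z3 + z2) z4
  have t2 := norm_add_le ((G - M) + z0 + z1 + z3) z2
  have t3 := norm_add_le ((G - M) + z0 + z1) z3
  have t4 := norm_add_le ((G - M) + z0) z1
  have t5 := norm_add_le (G - M) z0
  nlinarith

lemma sum_le_of_sq {α : Type*} (s : Finset α) (f : α → ℝ) (M : ℝ)
    (hM : 0 ≤ M) (h : (s.card : ℝ) * ∑ i ∈ s, f i ^ 2 ≤ M ^ 2) : ∑ i ∈ s, f i ≤ M := by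
  have h1 : (∑ i ∈ s, f i) ^ 2 ≤ M ^ 2 := sq_sum_le_card_mul_sum_sq.trans h
  exact le_of_sq_le_sq h1 hM

theorem core (ε : ℝ) (hε : 0 < ε) (U : ℕ) : ∃ (B x0 : ℕ), ∀ x : ℕ, x0 ≤ x → ∀ D A a0 : ℕ,
    (x : ℝ) ^ (1 / 2 : ℝ) ≤ D → (D : ℝ) ≤ (x : ℝ) ^ (1 - ε) → x * Real.log x ^ B ≤ (A : ℝ) * D →
    a0 + A ≤ x →
    ∑ a ∈ Ioc a0 (a0 + A), ∑ d ∈ (Ioc D (2 * D)).filter (fun d => a.Coprime d),
      |piAP x d a - lis x / (Nat.totient d : ℝ)| ≤ A * x / Real.log x ^ U := by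
  classical
  set U1 := U + 1 with hU1
  set E1 := 2 * U1 + 4 with hE1
  set E2 := 2 * E1 + U1 with hE2
  obtain ⟨B, x1, hsm⟩ := second_moment ε hε E1 (E2 + 1) (2 * U1) (by omega)
  obtain ⟨C, hC⟩ := model
  have hev : ∀ᶠ x : ℕ in atTop, x1 ≤ x ∧ 3 ≤ x ∧ 100 ≤ Real.log x ∧ 20 * |C| ≤ Real.log x ∧
      Real.log x ^ (5 * E1 + U1 + 2) ≤ (x : ℝ) ^ ε ∧
      Real.log x ^ (E2 + 1) ≤ (x : ℝ) ^ (ε / 2) ∧
      Real.log x ^ (U1 + 4) ≤ (x : ℝ) ^ (1 / 2 : ℝ) ∧ (4:ℝ) ≤ (x : ℝ) ^ (1 / 2 : ℝ) := by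
    filter_upwards [eventually_ge_atTop x1, eventually_ge_atTop 3, evt_log_ge 100,
      evt_log_ge (20 * |C|), evt_log_pow (5 * E1 + U1 + 2) ε hε, evt_log_pow (E2 + 1) (ε / 2)
      (by linarith), evt_log_pow (U1 + 4) (1 / 2) (by norm_num), eventually_ge_atTop 16] with
      x h1 h2 h3 h4 h5 h6 h7 h8
    refine ⟨h1, h2, h3, h4, h5, h6, h7, ?_⟩
    have : (16:ℝ) ≤ x := by exact_mod_cast h8
    calc (4:ℝ) = (16:ℝ) ^ (1 / 2 : ℝ) := by
          rw [show (16:ℝ) = 4 ^ (2:ℝ) by norm_num, ← Real.rpow_mul (by norm_num)]; norm_num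
      _ ≤ _ := by gcongr
  obtain ⟨x0, hx0⟩ := eventually_atTop.mp hev
  refine ⟨B, x0, fun x hx D A a0 hD hDε hAD haA => ?_⟩
  obtain ⟨hx1, hx3, hL, hCL, hLε, hLε2, hLhalf, h4⟩ := hx0 x hx
  set L := Real.log x with hLdef
  have hL0 : 0 < L := by linarith
  have hL1 : 1 ≤ L := by linarith
  have hxr : (3:ℝ) ≤ x := by exact_mod_cast hx3
  have hx0' : (0:ℝ) < x := by linarith
  -- `Q`
  set Q := ⌊L ^ E1⌋₊ with hQ
  have hLE1 : (1:ℝ) ≤ L ^ E1 := one_le_pow₀ hL1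
  have hQle : (Q:ℝ) ≤ L ^ E1 := Nat.floor_le (by positivity)
  have hQ1 : 1 ≤ Q := Nat.le_floor (by simpa using hLE1)
  have hQr : (1:ℝ) ≤ Q := by exact_mod_cast hQ1
  have hQge : L ^ E1 ≤ 2 * Q := by
    have := Nat.lt_floor_add_one (L ^ E1)
    rw [← hQ] at this
    linarith
  -- `K`, `K1`
  have hDr : (4:ℝ) ≤ D := h4.trans hD
  have hD4 : 4 ≤ D := by exact_mod_cast hDr
  set K := x / D with hKdef
  have hDK : D * K ≤ x := Nat.mul_div_le x D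
  have hDK' : (D:ℝ) * K ≤ x := by exact_mod_cast hDK
  have hKreal : (x:ℝ) / D < K + 1 := by
    rw [div_lt_iff₀ (by linarith)]
    have := Nat.lt_mul_div_succ x (show 0 < D by omega)
    have h2 : (x:ℝ) < D * (K + 1) := by exact_mod_cast this
    linarith
  have hxε : (x:ℝ) ^ ε ≤ x / D := by
    rw [le_div_iff₀ (by linarith)]
    calc (x:ℝ) ^ ε * D ≤ (x:ℝ) ^ ε * (x:ℝ) ^ (1 - ε) := by gcongr
      _ = x := by rw [← Real.rpow_add hx0']; simp
  have hxhalf : (100:ℝ) ≤ (x:ℝ) ^ (ε / 2) := by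
    refine le_trans ?_ hLε2
    calc (100:ℝ) ≤ L := hL
      _ = L ^ 1 := (pow_one L).symm
      _ ≤ L ^ (E2 + 1) := pow_le_pow_right₀ hL1 (by omega)
  have hKε : (x:ℝ) ^ (ε / 2) ≤ K := by
    have h1 : (x:ℝ) ^ ε = (x:ℝ) ^ (ε / 2) * (x:ℝ) ^ (ε / 2) := by
      rw [← Real.rpow_add hx0']; congr 1; ring
    nlinarith
  set K1 := ⌊(K:ℝ) / L ^ E2⌋₊ with hK1
  have hLE2 : (1:ℝ) ≤ L ^ E2 := one_le_pow₀ hL1
  have hK1le : (K1:ℝ) ≤ K / L ^ E2 := Nat.floor_le (by positivity)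
  have hK1K : K1 ≤ K := by
    have : (K1:ℝ) ≤ K := hK1le.trans (div_le_self (by positivity) hLE2)
    exact_mod_cast this
  have hKK1 : (K:ℝ) ≤ K1 * L ^ (E2 + 1) := by
    have h1 : (K:ℝ) / L ^ E2 < K1 + 1 := Nat.lt_floor_add_one _
    have h2 : L ≤ (K:ℝ) / L ^ E2 := by
      rw [le_div_iff₀ (by positivity)]
      calc L * L ^ E2 = L ^ (E2 + 1) := by ring
        _ ≤ _ := hLε2.trans hKε
    have h3 : (K:ℝ) / L ^ E2 ≤ K1 * L := by nlinarith
    calc (K:ℝ) = (K / L ^ E2) * L ^ E2 := by field_simp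
      _ ≤ (K1 * L) * L ^ E2 := by gcongr
      _ = _ := by ring
  have hsm1 := hsm x hx1 Q D A a0 K1 hQle hQge hD hDε hAD haA hK1K hKK1 1 (Or.inl rfl)
  have hsm2 := hsm x hx1 Q D A a0 K1 hQle hQge hD hDε hAD haA hK1K hKK1 (-1) (Or.inr rfl)
  -- L1 from L2
  have hL2 : ∀ σ : ℤ, ∑ a ∈ Ioc a0 (a0 + A), ∑ d ∈ Ioc D (2 * D),
      ‖∑ k ∈ Ioc K1 K, ffz x Q ((a : ℤ) + σ * d * k)‖ ^ 2 ≤ A * x * (K : ℕ) / L ^ (2 * U1) →
      ∑ a ∈ Ioc a0 (a0 + A), ∑ d ∈ Ioc D (2 * D),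
      ‖∑ k ∈ Ioc K1 K, ffz x Q ((a : ℤ) + σ * d * k)‖ ≤ A * x / L ^ U1 := by
    intro σ h
    rw [← sum_product'] at h ⊢
    apply sum_le_of_sq _ _ _ (by positivity)
    rw [card_product, Nat.card_Ioc, Nat.card_Ioc]
    have hcard : (((a0 + A - a0) * (2 * D - D) : ℕ) : ℝ) = A * D := by
      rw [show a0 + A - a0 = A by omega, show 2 * D - D = D by omega]; push_cast; ring
    rw [hcard]
    calc (A:ℝ) * D * _ ≤ A * D * (A * x * (K : ℕ) / L ^ (2 * U1)) := by gcongr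
      _ = (A * (D * K)) * (A * x) / L ^ (2 * U1) := by ring
      _ ≤ (A * x) * (A * x) / L ^ (2 * U1) := by gcongr
      _ = _ := by rw [div_pow, ← pow_mul]; ring_nf
  have hM1 := hL2 1 hsm1
  have hM2 := hL2 (-1) hsm2
  -- pointwise
  have hpt : ∀ a ∈ Ioc a0 (a0 + A), ∀ d ∈ (Ioc D (2 * D)).filter (fun d => a.Coprime d),
      |piAP x d a - lis x / (Nat.totient d : ℝ)| ≤
      ‖(∑ n ∈ (Icc 2 x).filter (fun n => n ≡ a [MOD d]), gg Q n / (Real.log n : ℂ)) -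
        ((lis x / (Nat.totient d : ℝ) : ℝ) : ℂ)‖ + ((1 + 2 * K1) * (1 + 2 * (Q : ℝ) ^ 2) +
      ‖∑ k ∈ Ioc K1 K, ffz x Q ((a : ℤ) + (1 : ℤ) * d * k)‖ +
      ‖∑ k ∈ Ioc K1 K, ffz x Q ((a : ℤ) + (-1 : ℤ) * d * k)‖) := by
    intro a ha d hd
    rw [mem_Ioc] at ha
    rw [mem_filter, mem_Ioc] at hd
    have := disc_le x Q D d a (by omega) (by omega) (by omega) hd.1.1 K1 hK1K
    linarith
  have hmodel : ∀ a ∈ Ioc a0 (a0 + A), ∑ d ∈ (Ioc D (2 * D)).filter (fun d => a.Coprime d),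
      ‖(∑ n ∈ (Icc 2 x).filter (fun n => n ≡ a [MOD d]), gg Q n / (Real.log n : ℂ)) -
        ((lis x / (Nat.totient d : ℝ) : ℝ) : ℂ)‖ ≤ x / L ^ U1 := by
    intro a _
    refine (hC x Q D a (by omega) hQ1 (by omega)).trans ?_
    have hlogQ : 1 + Real.log Q ≤ 2 * L := by
      have hQx : (Q:ℝ) ≤ x := by
        refine hQle.trans ?_
        calc L ^ E1 ≤ L ^ (E2 + 1) := pow_le_pow_right₀ hL1 (by omega)
          _ ≤ (x:ℝ) ^ (ε / 2) := hLε2
          _ ≤ K := hKε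
          _ ≤ x := by exact_mod_cast Nat.div_le_self x D
      have := Real.log_le_log (by linarith) hQx
      linarith
    have hlogD : 1 + Real.log D ≤ 2 * L := by
      have hDx : (D:ℝ) ≤ x := by
        have : (1:ℝ) ≤ K := by linarith
        nlinarith
      have := Real.log_le_log (by linarith) hDx
      linarith
    have hlogQ0 : 0 ≤ Real.log Q := Real.log_nonneg hQr
    have hlogD0 : 0 ≤ Real.log D := Real.log_nonneg (by linarith)
    have p1 : (x:ℝ) * (1 + Real.log Q) ^ 2 / Q ≤ 8 * (x / L ^ (U1 + 1)) := by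
      calc (x:ℝ) * (1 + Real.log Q) ^ 2 / Q ≤ x * (2 * L) ^ 2 / (L ^ E1 / 2) := by
            gcongr; linarith
        _ = 8 * x * L ^ 2 / L ^ E1 := by field_simp; norm_num
        _ ≤ 8 * x * L ^ 2 / L ^ (U1 + 3) := by
            gcongr
            omega
        _ = 8 * (x / L ^ (U1 + 1)) := by
            rw [show U1 + 3 = (U1 + 1) + 2 by ring, pow_add]; field_simp
    have p2 : (x:ℝ) * (1 + Real.log D) ^ 2 / D ≤ 8 * (x / L ^ (U1 + 1)) := by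
      calc (x:ℝ) * (1 + Real.log D) ^ 2 / D ≤ x * (2 * L) ^ 2 / L ^ (U1 + 4) := by
            gcongr; exact hLhalf.trans hD
        _ = 4 * (x / (L ^ (U1 + 1) * L)) := by
            rw [show U1 + 4 = (U1 + 1) + 3 by ring, pow_add]; field_simp; ring
        _ ≤ 8 * (x / L ^ (U1 + 1)) := by
            have h1 : (x:ℝ) / (L ^ (U1 + 1) * L) ≤ x / L ^ (U1 + 1) := by
              apply div_le_div_of_nonneg_left hx0'.le (by positivity)
              nlinarith [show 0 < L ^ (U1 + 1) by positivity]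
            have h2 : 0 ≤ (x:ℝ) / L ^ (U1 + 1) := by positivity
            linarith
    have p3 : (D:ℝ) * (Q:ℝ) ^ 5 ≤ x / L ^ (U1 + 1) := by
      rw [le_div_iff₀ (by positivity)]
      calc (D:ℝ) * (Q:ℝ) ^ 5 * L ^ (U1 + 1) ≤ (x:ℝ) ^ (1 - ε) * (L ^ E1) ^ 5 * L ^ (U1 + 1) := by
            gcongr
        _ = (x:ℝ) ^ (1 - ε) * L ^ (5 * E1 + U1 + 1) := by
            rw [← pow_mul, mul_assoc, ← pow_add]; congr 2; ring
        _ ≤ (x:ℝ) ^ (1 - ε) * (x:ℝ) ^ ε := by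
            gcongr
            exact (pow_le_pow_right₀ hL1 (by omega)).trans hLε
        _ = x := by rw [← Real.rpow_add hx0']; simp
    have hy : 0 ≤ (x:ℝ) / L ^ (U1 + 1) := by positivity
    calc C * (x * (1 + Real.log Q) ^ 2 / Q + x * (1 + Real.log D) ^ 2 / D + D * (Q : ℝ) ^ 5)
        ≤ |C| * (8 * (x / L ^ (U1 + 1)) + 8 * (x / L ^ (U1 + 1)) + x / L ^ (U1 + 1)) := by
          apply mul_le_mul (le_abs_self C) _ (by positivity) (abs_nonneg C)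
          gcongr
      _ = (17 * |C|) * (x / L ^ (U1 + 1)) := by ring
      _ ≤ L * (x / L ^ (U1 + 1)) := by
          gcongr
          have := abs_nonneg C
          linarith
      _ = x / L ^ U1 := by rw [pow_succ]; field_simp
  have hconst : (A:ℝ) * D * ((1 + 2 * K1) * (1 + 2 * (Q : ℝ) ^ 2)) ≤ 10 * (A * x / L ^ U1) := by
    have hQ2 : 1 + 2 * (Q:ℝ) ^ 2 ≤ 3 * L ^ (2 * E1) := by
      have h1 : (Q:ℝ) ^ 2 ≤ L ^ (2 * E1) := by
        calc (Q:ℝ) ^ 2 ≤ (L ^ E1) ^ 2 := by gcongr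
          _ = _ := by rw [← pow_mul]; congr 1; ring
      have h2 : (1:ℝ) ≤ L ^ (2 * E1) := one_le_pow₀ hL1
      linarith
    have q1 : (D:ℝ) * L ^ (2 * E1) ≤ x / L ^ U1 := by
      rw [le_div_iff₀ (by positivity)]
      calc (D:ℝ) * L ^ (2 * E1) * L ^ U1 = D * L ^ (2 * E1 + U1) := by rw [mul_assoc, ← pow_add]
        _ ≤ (x:ℝ) ^ (1 - ε) * (x:ℝ) ^ ε := by
            gcongr
            exact (pow_le_pow_right₀ hL1 (by omega)).trans hLε
        _ = x := by rw [← Real.rpow_add hx0']; simp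
    have q2 : (D:ℝ) * K1 * L ^ (2 * E1) ≤ x / L ^ U1 := by
      calc (D:ℝ) * K1 * L ^ (2 * E1) ≤ D * (K / L ^ E2) * L ^ (2 * E1) := by gcongr
        _ = (D * K) * (L ^ (2 * E1) / L ^ E2) := by ring
        _ ≤ x * (L ^ (2 * E1) / L ^ E2) := by gcongr
        _ = x / L ^ U1 := by rw [hE2, pow_add]; field_simp
    calc (A:ℝ) * D * ((1 + 2 * K1) * (1 + 2 * (Q : ℝ) ^ 2))
        ≤ A * D * ((1 + 2 * K1) * (3 * L ^ (2 * E1))) := by gcongr
      _ = 3 * A * (D * L ^ (2 * E1)) + 6 * A * (D * K1 * L ^ (2 * E1)) := by ring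
      _ ≤ 3 * A * (x / L ^ U1) + 6 * A * (x / L ^ U1) := by gcongr
      _ ≤ _ := by
        have : 0 ≤ (A:ℝ) * (x / L ^ U1) := by positivity
        have h2 : (A:ℝ) * x / L ^ U1 = A * (x / L ^ U1) := by ring
        rw [h2]; linarith
  calc ∑ a ∈ Ioc a0 (a0 + A), ∑ d ∈ (Ioc D (2 * D)).filter (fun d => a.Coprime d),
        |piAP x d a - lis x / (Nat.totient d : ℝ)|
      ≤ ∑ a ∈ Ioc a0 (a0 + A), ∑ d ∈ (Ioc D (2 * D)).filter (fun d => a.Coprime d),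
      (‖(∑ n ∈ (Icc 2 x).filter (fun n => n ≡ a [MOD d]), gg Q n / (Real.log n : ℂ)) -
        ((lis x / (Nat.totient d : ℝ) : ℝ) : ℂ)‖ + ((1 + 2 * K1) * (1 + 2 * (Q : ℝ) ^ 2) +
      ‖∑ k ∈ Ioc K1 K, ffz x Q ((a : ℤ) + (1 : ℤ) * d * k)‖ +
      ‖∑ k ∈ Ioc K1 K, ffz x Q ((a : ℤ) + (-1 : ℤ) * d * k)‖)) :=
        sum_le_sum fun a ha => sum_le_sum fun d hd => hpt a ha d hd
    _ = ∑ a ∈ Ioc a0 (a0 + A), ∑ d ∈ (Ioc D (2 * D)).filter (fun d => a.Coprime d),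
      ‖(∑ n ∈ (Icc 2 x).filter (fun n => n ≡ a [MOD d]), gg Q n / (Real.log n : ℂ)) -
        ((lis x / (Nat.totient d : ℝ) : ℝ) : ℂ)‖ +
      ∑ a ∈ Ioc a0 (a0 + A), ∑ d ∈ (Ioc D (2 * D)).filter (fun d => a.Coprime d),
      ((1 + 2 * K1) * (1 + 2 * (Q : ℝ) ^ 2) +
      ‖∑ k ∈ Ioc K1 K, ffz x Q ((a : ℤ) + (1 : ℤ) * d * k)‖ +
      ‖∑ k ∈ Ioc K1 K, ffz x Q ((a : ℤ) + (-1 : ℤ) * d * k)‖) := by
        rw [← sum_add_distrib]
        exact sum_congr rfl fun a _ => sum_add_distrib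
    _ ≤ ∑ a ∈ Ioc a0 (a0 + A), (x / L ^ U1 : ℝ) +
      ∑ a ∈ Ioc a0 (a0 + A), ∑ d ∈ Ioc D (2 * D),
      ((1 + 2 * K1) * (1 + 2 * (Q : ℝ) ^ 2) +
      ‖∑ k ∈ Ioc K1 K, ffz x Q ((a : ℤ) + (1 : ℤ) * d * k)‖ +
      ‖∑ k ∈ Ioc K1 K, ffz x Q ((a : ℤ) + (-1 : ℤ) * d * k)‖) := by
        apply add_le_add (sum_le_sum hmodel)
        refine sum_le_sum fun a _ => ?_
        apply sum_le_sum_of_subset_of_nonneg (filter_subset _ _)
        intros; positivity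
    _ = A * (x / L ^ U1) + (A * D * ((1 + 2 * K1) * (1 + 2 * (Q : ℝ) ^ 2)) +
      ∑ a ∈ Ioc a0 (a0 + A), ∑ d ∈ Ioc D (2 * D),
        ‖∑ k ∈ Ioc K1 K, ffz x Q ((a : ℤ) + (1 : ℤ) * d * k)‖ +
      ∑ a ∈ Ioc a0 (a0 + A), ∑ d ∈ Ioc D (2 * D),
        ‖∑ k ∈ Ioc K1 K, ffz x Q ((a : ℤ) + (-1 : ℤ) * d * k)‖) := by
        simp only [sum_add_distrib, sum_const, Nat.card_Ioc, nsmul_eq_mul]
        rw [show a0 + A - a0 = A by omega, show 2 * D - D = D by omega]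
        ring
    _ ≤ A * (x / L ^ U1) + (10 * (A * x / L ^ U1) + A * x / L ^ U1 + A * x / L ^ U1) := by
        gcongr
    _ = 13 * (A * x / L ^ U1) := by ring
    _ ≤ L * (A * x / L ^ U1) := by
        have : 0 ≤ (A:ℝ) * x / L ^ U1 := by positivity
        nlinarith
    _ = A * x / L ^ U := by rw [hU1, pow_succ]; field_simp

end Pool.Agent.H442R2.EHI
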